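import Mathlib

/-!
# A P4-set which is not a P2-set

In the cyclic group of order `10` the set `{1, 3, 4, 8}` is a P4-set but not a P2-set: its nonempty
subset sums are exactly the nine nonzero elements, and `c(ℤ₁₀) = 5`.
-/

set_option autoImplicit false

open Finset

namespace Pool.Agent.Results.MP_71efc4_nt.P4NotP2

variable {G : Type} [AddCommGroup G]

/-- `Σ A`: the set of all subset sums of `A` (the empty subset included). -/
def sumsAll (A : Finset G) : Set G := {g | ∃ B : Finset G, B ⊆ A ∧ ∑ x ∈ B, x = g}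

/-- `Σ* A`: the set of all sums of nonempty subsets of `A`. -/
def sumsNonempty (A : Finset G) : Set G :=
  {g | ∃ B : Finset G, B ⊆ A ∧ B.Nonempty ∧ ∑ x ∈ B, x = g}

/-- `c₀(G)`: the least `m` such that `Σ A = G` for all `A ⊆ G \ {0}` with `|A| ≥ m`. -/
noncomputable def c0 (G : Type) [AddCommGroup G] : ℕ :=
  sInf {m | ∀ A : Finset G, (0 : G) ∉ A → m ≤ A.card → sumsAll A = Set.univ}

/-- `c(G)`: the least `m` such that `Σ* A = G` for all `A ⊆ G \ {0}` with `|A| ≥ m`. -/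
noncomputable def c (G : Type) [AddCommGroup G] : ℕ :=
  sInf {m | ∀ A : Finset G, (0 : G) ∉ A → m ≤ A.card → sumsNonempty A = Set.univ}

/-- P2-sets: `A ⊆ G \ {0}`, `|A| = c₀(G) - 1` and `Σ A ≠ G`. -/
def IsP2 (A : Finset G) : Prop :=
  (0 : G) ∉ A ∧ A.card + 1 = c0 G ∧ sumsAll A ≠ Set.univ

/-- P4-sets: `A ⊆ G \ {0}`, `|A| = c(G) - 1` and `Σ* A ≠ G`. -/
def IsP4 (A : Finset G) : Prop :=
  (0 : G) ∉ A ∧ A.card + 1 = c G ∧ sumsNonempty A ≠ Set.univ

theorem check5 : ∀ l ∈ List.sublistsLen 5 ([1, 2, 3, 4, 5, 6, 7, 8, 9] : List (ZMod 10)),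
    ∀ g : ZMod 10, ∃ s ∈ l.sublists, s ≠ [] ∧ s.sum = g := by
  decide +kernel

theorem check5' (A : Finset (ZMod 10)) (h0 : (0 : ZMod 10) ∉ A) (hA : A.card = 5) (g : ZMod 10) :
    ∃ B : Finset (ZMod 10), B ⊆ A ∧ B.Nonempty ∧ ∑ x ∈ B, x = g := by
  have hnd : ([1, 2, 3, 4, 5, 6, 7, 8, 9] : List (ZMod 10)).Nodup := by decide
  have hl : ∀ x : ZMod 10, x ≠ 0 → x ∈ ([1, 2, 3, 4, 5, 6, 7, 8, 9] : List (ZMod 10)) := by decide
  set l := ([1, 2, 3, 4, 5, 6, 7, 8, 9] : List (ZMod 10)).filter (fun x => x ∈ A) with hldef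
  have hln : l.Nodup := hnd.filter _
  have hlA : l.toFinset = A := by
    ext x
    simp only [hldef, List.mem_toFinset, List.mem_filter, decide_eq_true_eq]
    exact ⟨fun h => h.2, fun h => ⟨hl x (fun h' => h0 (h' ▸ h)), h⟩⟩
  have hlen : l.length = 5 := by
    rw [← List.toFinset_card_of_nodup hln, hlA, hA]
  obtain ⟨s, hs, hne, hsum⟩ := check5 l
    (List.mem_sublistsLen.2 ⟨List.filter_sublist, hlen⟩) g
  have hsub := List.mem_sublists.1 hs
  have hsn : s.Nodup := hln.sublist hsub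
  refine ⟨s.toFinset, ?_, ?_, ?_⟩
  · intro x hx
    rw [← hlA, List.mem_toFinset]
    exact hsub.subset (List.mem_toFinset.1 hx)
  · rwa [List.toFinset_nonempty_iff]
  · rw [List.sum_toFinset _ hsn, List.map_id', hsum]

theorem c_eq : c (ZMod 10) = 5 := by
  have hmem : (5 : ℕ) ∈ {m | ∀ A : Finset (ZMod 10), (0 : ZMod 10) ∉ A → m ≤ A.card →
      sumsNonempty A = Set.univ} := by
    intro A h0 hA
    obtain ⟨B, hBA, hB⟩ := exists_subset_card_eq hA
    rw [Set.eq_univ_iff_forall]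
    intro g
    obtain ⟨C, hC, hne, hsum⟩ := check5' B (fun h => h0 (hBA h)) hB g
    exact ⟨C, hC.trans hBA, hne, hsum⟩
  refine le_antisymm (Nat.sInf_le hmem) ?_
  by_contra hlt
  push Not at hlt
  have hin := Nat.sInf_mem (⟨5, hmem⟩ : {m | ∀ A : Finset (ZMod 10), (0 : ZMod 10) ∉ A →
      m ≤ A.card → sumsNonempty A = Set.univ}.Nonempty)
  have h4 := hin {1, 3, 4, 8} (by decide) (by
    have : ({1, 3, 4, 8} : Finset (ZMod 10)).card = 4 := by decide
    rw [this]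
    unfold c at hlt
    omega)
  have h0 : (0 : ZMod 10) ∈ sumsNonempty ({1, 3, 4, 8} : Finset (ZMod 10)) := by
    rw [h4]; exact Set.mem_univ _
  obtain ⟨B, hB, hne, hsum⟩ := h0
  have : ∀ B ∈ ({1, 3, 4, 8} : Finset (ZMod 10)).powerset, B.Nonempty → ∑ x ∈ B, x ≠ 0 := by
    decide +kernel
  exact this B (mem_powerset.2 hB) hne hsum

/-- There is a finite abelian group of order at least `10` with a P4-set that is not a P2-set;
explicitly, `{1, 3, 4, 8}` in the cyclic group of order `10`. -/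
theorem result : IsP4 ({1, 3, 4, 8} : Finset (ZMod 10)) ∧ ¬ IsP2 ({1, 3, 4, 8} : Finset (ZMod 10)) ∧
    ∃ (G : Type) (_ : AddCommGroup G) (_ : Fintype G), 10 ≤ Fintype.card G ∧
      ∃ A : Finset G, IsP4 A ∧ ¬ IsP2 A := by
  have h1 : IsP4 ({1, 3, 4, 8} : Finset (ZMod 10)) := by
    refine ⟨by decide, ?_, ?_⟩
    · rw [c_eq]; decide
    · intro h4
      have h0 : (0 : ZMod 10) ∈ sumsNonempty ({1, 3, 4, 8} : Finset (ZMod 10)) := by
        rw [h4]; exact Set.mem_univ _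
      obtain ⟨B, hB, hne, hsum⟩ := h0
      have : ∀ B ∈ ({1, 3, 4, 8} : Finset (ZMod 10)).powerset, B.Nonempty → ∑ x ∈ B, x ≠ 0 := by
        decide +kernel
      exact this B (mem_powerset.2 hB) hne hsum
  have h2 : ¬ IsP2 ({1, 3, 4, 8} : Finset (ZMod 10)) := by
    rintro ⟨-, -, h⟩
    apply h
    rw [Set.eq_univ_iff_forall]
    intro g
    have : ∀ g : ZMod 10, ∃ B ∈ ({1, 3, 4, 8} : Finset (ZMod 10)).powerset, ∑ x ∈ B, x = g := by
      decide +kernel
    obtain ⟨B, hB, hsum⟩ := this g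
    exact ⟨B, mem_powerset.1 hB, hsum⟩
  refine ⟨h1, h2, ZMod 10, inferInstance, inferInstance, ?_, _, h1, h2⟩
  rw [ZMod.card]

end Pool.Agent.Results.MP_71efc4_nt.P4NotP2
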